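import Mathlib
import Pool.Agent.H306R2.SM.Defs

set_option autoImplicit false

namespace Pool.Agent.H768R2.SM_T2

open Finset Filter Topology MeasureTheory Pool.Agent.H306R2 Pool.Agent.H306R2.SM

theorem om_integrable (k : ℕ) (δ : ℝ) (hδ : 0 < δ) :
    IntegrableOn (fun t => om k δ t) (Set.Ioi 0) := by
  have h := integrableOn_rpow_mul_exp_neg_mul_rpow (p := 1) (s := (k : ℝ)) (b := δ)
    (by have : (0:ℝ) ≤ k := Nat.cast_nonneg k; linarith) one_pos hδ
  have h2 := h.const_mul (δ ^ (k + 1) / (k.factorial : ℝ))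
  refine h2.congr ?_
  refine (ae_restrict_iff' measurableSet_Ioi).mpr (Filter.Eventually.of_forall fun t ht => ?_)
  simp only [om, Real.rpow_natCast, Real.rpow_one]
  have : -δ * t = -(δ * t) := by ring
  rw [this]
  ring

theorem ef_norm (θ t : ℝ) : ‖ef θ t‖ = 1 := by
  unfold ef
  exact Complex.norm_exp_ofReal_mul_I _

theorem ef_cont (θ : ℝ) : Continuous (ef θ) := by
  unfold ef
  fun_prop

theorem int_one (k : ℕ) (δ : ℝ) (hδ : 0 < δ) (θ : ℝ) :
    Integrable (fun t => (om k δ t : ℂ) * ef θ t) (volume.restrict (Set.Ioi (0 : ℝ))) := by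
  have h : Integrable (fun t => (om k δ t : ℂ)) (volume.restrict (Set.Ioi (0 : ℝ))) :=
    (om_integrable k δ hδ).ofReal
  refine h.mul_bdd (c := 1) (ef_cont θ).aestronglyMeasurable ?_
  exact Filter.Eventually.of_forall fun t => (ef_norm θ t).le

theorem pow_int (k : ℕ) (δ : ℝ) (hδ : 0 < δ) (r : ℂ) (hr : r.re = δ) :
    IntegrableOn (fun t : ℝ => (t : ℂ) ^ k * Complex.exp (-(r * t))) (Set.Ioi 0) := by
  have h := integrableOn_rpow_mul_exp_neg_mul_rpow (p := 1) (s := (k : ℝ)) (b := δ)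
    (by have : (0:ℝ) ≤ k := Nat.cast_nonneg k; linarith) one_pos hδ
  refine Integrable.mono' h ?_ ?_
  · exact (by fun_prop : Continuous fun t : ℝ => (t : ℂ) ^ k *
      Complex.exp (-(r * t))).aestronglyMeasurable
  · refine (ae_restrict_iff' measurableSet_Ioi).mpr (Filter.Eventually.of_forall fun t ht => ?_)
    have ht0 : (0 : ℝ) < t := ht
    rw [norm_mul, norm_pow, Complex.norm_real, Real.norm_of_nonneg ht0.le, Complex.norm_exp]
    simp only [Real.rpow_natCast, Real.rpow_one]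
    have : (-(r * (t : ℂ))).re = -δ * t := by simp [hr]
    rw [this]

theorem pow_eval (δ : ℝ) (hδ : 0 < δ) (r : ℂ) (hr : r.re = δ) (k : ℕ) :
    (∫ t in Set.Ioi (0 : ℝ), (t : ℂ) ^ k * Complex.exp (-(r * t))) =
      (k.factorial : ℂ) / r ^ (k + 1) := by
  have hne : r ≠ 0 := by
    intro h; rw [h] at hr; simp at hr; linarith
  induction k with
  | zero =>
    have h := integral_exp_mul_complex_Ioi (a := -r) (by simp [hr, hδ]) 0
    simp only [pow_zero, one_mul, Nat.factorial_zero, Nat.cast_one, zero_add, pow_one]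
    have h2 : (∫ t in Set.Ioi (0 : ℝ), Complex.exp (-(r * t))) =
        ∫ t in Set.Ioi (0 : ℝ), Complex.exp (-r * t) := by
      refine setIntegral_congr_fun measurableSet_Ioi fun t _ => ?_
      simp only [neg_mul]
    rw [h2, h]
    simp
  | succ k ih =>
    have hder : ∀ t : ℝ, HasDerivAt (fun t : ℝ => -((t : ℂ) ^ (k + 1) / r) * Complex.exp (-(r * t)))
        ((t : ℂ) ^ (k + 1) * Complex.exp (-(r * t)) -
          ((k : ℂ) + 1) / r * ((t : ℂ) ^ k * Complex.exp (-(r * t)))) t := by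
      intro t
      have h1 : HasDerivAt (fun z : ℂ => -(z ^ (k + 1) / r) * Complex.exp (-(r * z)))
          ((t : ℂ) ^ (k + 1) * Complex.exp (-(r * t)) -
          ((k : ℂ) + 1) / r * ((t : ℂ) ^ k * Complex.exp (-(r * t)))) (t : ℂ) := by
        have ha : HasDerivAt (fun z : ℂ => -(z ^ (k + 1) / r)) (-(((k + 1 : ℕ) : ℂ) * (t : ℂ) ^ k / r))
            (t : ℂ) := by
          have h0 := (hasDerivAt_pow (k + 1) (t : ℂ)).div_const r
          have h1 := h0.neg
          rw [Nat.add_sub_cancel] at h1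
          exact h1
        have hb : HasDerivAt (fun z : ℂ => Complex.exp (-(r * z)))
            (Complex.exp (-(r * t)) * (-(r * 1))) (t : ℂ) :=
          (((hasDerivAt_id (t : ℂ)).const_mul r).neg).cexp
        have hab := ha.mul hb
        have heq : (t : ℂ) ^ (k + 1) * Complex.exp (-(r * t)) -
            ((k : ℂ) + 1) / r * ((t : ℂ) ^ k * Complex.exp (-(r * t))) =
            -(((k + 1 : ℕ) : ℂ) * (t : ℂ) ^ k / r) * Complex.exp (-(r * t)) +
            -((t : ℂ) ^ (k + 1) / r) * (Complex.exp (-(r * t)) * (-(r * 1))) := by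
          push_cast
          field_simp
          ring
        rw [heq]
        exact hab
      exact h1.comp_ofReal
    have htend : Tendsto (fun t : ℝ => -((t : ℂ) ^ (k + 1) / r) * Complex.exp (-(r * t))) atTop
        (𝓝 0) := by
      rw [tendsto_zero_iff_norm_tendsto_zero]
      have h1 := tendsto_rpow_mul_exp_neg_mul_atTop_nhds_zero ((k + 1 : ℕ) : ℝ) δ hδ
      have h2 := h1.mul_const (1 / ‖r‖)
      rw [zero_mul] at h2
      refine h2.congr' ?_
      filter_upwards [eventually_gt_atTop 0] with t ht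
      rw [norm_mul, norm_neg, norm_div, norm_pow, Complex.norm_real, Real.norm_of_nonneg ht.le,
        Complex.norm_exp, Real.rpow_natCast]
      have : (-(r * (t : ℂ))).re = -δ * t := by simp [hr]
      rw [this]
      ring
    have hint1 := pow_int (k + 1) δ hδ r hr
    have hint2 := (pow_int k δ hδ r hr).const_mul (((k : ℂ) + 1) / r)
    have h := integral_Ioi_of_hasDerivAt_of_tendsto (a := (0 : ℝ))
      (hder 0).continuousAt.continuousWithinAt (fun t _ => hder t) (hint1.sub hint2) htend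
    rw [integral_sub hint1 hint2, integral_const_mul, ih] at h
    have h3 : (∫ t in Set.Ioi (0 : ℝ), (t : ℂ) ^ (k + 1) * Complex.exp (-(r * t))) =
        ((k : ℂ) + 1) / r * ((k.factorial : ℂ) / r ^ (k + 1)) := by
      have h4 := sub_eq_iff_eq_add.mp h
      rw [h4]
      simp
    rw [h3, Nat.factorial_succ]
    push_cast
    field_simp
    ring

theorem J_eval (k : ℕ) (δ : ℝ) (hδ : 0 < δ) (θ : ℝ) :
    (∫ t in Set.Ioi (0 : ℝ), (om k δ t : ℂ) * ef θ t) =
      ((δ : ℂ) / ((δ : ℂ) - θ * Complex.I)) ^ (k + 1) := by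
  have hfac : ((k.factorial : ℕ) : ℂ) ≠ 0 := by exact_mod_cast Nat.factorial_ne_zero k
  have hcong : (∫ t in Set.Ioi (0 : ℝ), (om k δ t : ℂ) * ef θ t) =
      ∫ t in Set.Ioi (0 : ℝ), ((δ : ℂ) ^ (k + 1) / (k.factorial : ℂ)) *
        ((t : ℂ) ^ k * Complex.exp (-(((δ : ℂ) - θ * Complex.I) * t))) := by
    refine setIntegral_congr_fun measurableSet_Ioi fun t ht => ?_
    simp only [om, ef]
    have : Complex.exp (-(((δ : ℂ) - θ * Complex.I) * t)) =
        Complex.exp (-((δ : ℂ) * t)) * Complex.exp ((θ * t : ℂ) * Complex.I) := by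
      rw [← Complex.exp_add]
      congr 1
      ring
    rw [this]
    push_cast
    ring
  rw [hcong, integral_const_mul, pow_eval δ hδ _ (by simp) k, div_pow]
  field_simp

theorem J_zero (k : ℕ) (δ : ℝ) (hδ : 0 < δ) :
    (∫ t in Set.Ioi (0 : ℝ), (om k δ t : ℂ) * ef 0 t) = 1 := by
  rw [J_eval k δ hδ 0]
  have : (δ : ℂ) ≠ 0 := by exact_mod_cast hδ.ne'
  simp [this]

theorem J_bound (k : ℕ) (δ : ℝ) (hδ : 0 < δ) (θ G : ℝ) (hG : 0 < G) (h : G ≤ |θ|) :
    ‖∫ t in Set.Ioi (0 : ℝ), (om k δ t : ℂ) * ef θ t‖ ≤ (δ / G) ^ (k + 1) := by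
  rw [J_eval k δ hδ θ, norm_pow, norm_div]
  have h1 : ‖(δ : ℂ)‖ = δ := by
    rw [Complex.norm_real, Real.norm_of_nonneg hδ.le]
  rw [h1]
  have h2 : G ≤ ‖(δ : ℂ) - θ * Complex.I‖ := by
    refine h.trans ?_
    have := Complex.abs_im_le_norm ((δ : ℂ) - θ * Complex.I)
    simpa using this
  gcongr

/-- T2 -/
theorem norm_diag {ι : Type*} (s : Finset ι) (x : ι → ℂ) (θ : ι → ℝ) (G : ℝ) (hG : 0 < G)
    (hsep : ∀ i ∈ s, ∀ j ∈ s, i ≠ j → G ≤ |θ i - θ j|) (k : ℕ) (δ : ℝ) (hδ : 0 < δ) :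
    |(∫ t in Set.Ioi (0 : ℝ), om k δ t * ‖∑ i ∈ s, x i * ef (-(θ i)) t‖ ^ 2) -
      ∑ i ∈ s, ‖x i‖ ^ 2| ≤ (∑ i ∈ s, ‖x i‖) ^ 2 * (δ / G) ^ (k + 1) := by
  classical
  have key : ((∫ t in Set.Ioi (0 : ℝ), om k δ t * ‖∑ i ∈ s, x i * ef (-(θ i)) t‖ ^ 2 : ℝ) : ℂ) =
      ∑ i ∈ s, ∑ j ∈ s, x i * (starRingEnd ℂ) (x j) *
        ∫ t in Set.Ioi (0 : ℝ), (om k δ t : ℂ) * ef (θ j - θ i) t := by
    rw [← integral_complex_ofReal]
    have h1 : ∀ t : ℝ, ((om k δ t * ‖∑ i ∈ s, x i * ef (-(θ i)) t‖ ^ 2 : ℝ) : ℂ) =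
        ∑ i ∈ s, ∑ j ∈ s, (x i * (starRingEnd ℂ) (x j)) * ((om k δ t : ℂ) * ef (θ j - θ i) t) := by
      intro t
      push_cast
      rw [← Complex.mul_conj', map_sum, Finset.sum_mul_sum, Finset.mul_sum]
      refine Finset.sum_congr rfl fun i _ => ?_
      rw [Finset.mul_sum]
      refine Finset.sum_congr rfl fun j _ => ?_
      have h2 : (starRingEnd ℂ) (ef (-(θ j)) t) = ef (θ j) t := by
        unfold ef
        rw [← Complex.exp_conj]
        congr 1
        simp
      have h3 : ef (θ j - θ i) t = ef (-(θ i)) t * ef (θ j) t := by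
        unfold ef
        rw [← Complex.exp_add]
        congr 1
        push_cast
        ring
      rw [map_mul, h2, h3]
      ring
    simp_rw [h1]
    rw [integral_finsetSum]
    · refine Finset.sum_congr rfl fun i _ => ?_
      rw [integral_finsetSum]
      · refine Finset.sum_congr rfl fun j _ => ?_
        rw [integral_const_mul]
      · intro j _
        exact (int_one k δ hδ _).const_mul _
    · intro i _
      refine integrable_finsetSum _ fun j _ => ?_
      exact (int_one k δ hδ _).const_mul _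
  have hdiag : ((∑ i ∈ s, ‖x i‖ ^ 2 : ℝ) : ℂ) =
      ∑ i ∈ s, ∑ j ∈ s, (if i = j then x i * (starRingEnd ℂ) (x j) else 0) := by
    push_cast
    refine Finset.sum_congr rfl fun i hi => ?_
    rw [Finset.sum_ite_eq]
    simp only [hi, if_true]
    rw [Complex.mul_conj']
  have hdiff : (((∫ t in Set.Ioi (0 : ℝ), om k δ t * ‖∑ i ∈ s, x i * ef (-(θ i)) t‖ ^ 2) -
      ∑ i ∈ s, ‖x i‖ ^ 2 : ℝ) : ℂ) =
      ∑ i ∈ s, ∑ j ∈ s, (if i = j then 0 else x i * (starRingEnd ℂ) (x j) *
        ∫ t in Set.Ioi (0 : ℝ), (om k δ t : ℂ) * ef (θ j - θ i) t) := by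
    rw [Complex.ofReal_sub, key, hdiag, ← Finset.sum_sub_distrib]
    refine Finset.sum_congr rfl fun i _ => ?_
    rw [← Finset.sum_sub_distrib]
    refine Finset.sum_congr rfl fun j _ => ?_
    by_cases hij : i = j
    · subst hij
      simp only [if_true, sub_self, J_zero k δ hδ, mul_one]
    · simp only [hij, if_false, sub_zero]
  rw [← Real.norm_eq_abs, ← Complex.norm_real, hdiff]
  have hpos : 0 ≤ (δ / G) ^ (k + 1) := by positivity
  calc ‖∑ i ∈ s, ∑ j ∈ s, (if i = j then 0 else x i * (starRingEnd ℂ) (x j) *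
        ∫ t in Set.Ioi (0 : ℝ), (om k δ t : ℂ) * ef (θ j - θ i) t)‖
      ≤ ∑ i ∈ s, ∑ j ∈ s, ‖x i‖ * ‖x j‖ * (δ / G) ^ (k + 1) := by
        refine (norm_sum_le _ _).trans (Finset.sum_le_sum fun i hi => ?_)
        refine (norm_sum_le _ _).trans (Finset.sum_le_sum fun j hj => ?_)
        by_cases hij : i = j
        · simp only [hij, if_true, norm_zero]
          positivity
        · simp only [hij, if_false]
          rw [norm_mul, norm_mul, RCLike.norm_conj]
          refine mul_le_mul_of_nonneg_left ?_ (by positivity)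
          exact J_bound k δ hδ _ G hG (hsep j hj i hi (Ne.symm hij))
    _ = (∑ i ∈ s, ‖x i‖) ^ 2 * (δ / G) ^ (k + 1) := by
        rw [sq, Finset.sum_mul_sum, Finset.sum_mul]
        refine Finset.sum_congr rfl fun i _ => ?_
        rw [Finset.sum_mul]

end Pool.Agent.H768R2.SM_T2
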