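import Pool.Agent.H306R2.SM.Defs

set_option autoImplicit false

namespace Pool.Agent.H768R2.SM_T2b

open Finset Filter Topology MeasureTheory Complex
open Pool.Agent.H306R2 Pool.Agent.H306R2.SM

/-- one sided version: `a > b ≥ 1`, `a b ≤ M²` -/
theorem sep_aux (M : ℝ) (a b : ℕ) (hb : 1 ≤ b) (hab : b < a) (hM : 0 < M)
    (h : (a : ℝ) * b ≤ M ^ 2) : 1 / (2 * M) ≤ Real.log ((a : ℝ) / b) := by
  have hb0 : (0 : ℝ) < b := by exact_mod_cast hb
  have ha0 : (0 : ℝ) < a := by exact_mod_cast (by omega : 0 < a)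
  have hb1 : (1 : ℝ) ≤ b := by exact_mod_cast hb
  have hab' : (b : ℝ) + 1 ≤ a := by exact_mod_cast hab
  have hM1 : 1 ≤ M := by nlinarith
  -- `log (a/b) ≥ 1 - b/a ≥ 1/a`
  have h1 : 1 - (b : ℝ) / a ≤ Real.log ((a : ℝ) / b) := by
    have h2 := Real.one_sub_inv_le_log_of_pos (div_pos ha0 hb0)
    rwa [inv_div] at h2
  by_cases h2 : 2 * (b : ℝ) ≤ a
  · have h3 : (b : ℝ) / a ≤ 1 / 2 := by
      rw [div_le_iff₀ ha0]; linarith
    have h4 : 1 / (2 * M) ≤ 1 / 2 := by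
      apply one_div_le_one_div_of_le (by norm_num); linarith
    linarith
  · have h5 : (a : ℝ) ≤ 2 * M := by
      have h6 : (a : ℝ) < 2 * b := not_le.1 h2
      have h7 : (a : ℝ) ^ 2 ≤ 2 * M ^ 2 := by nlinarith
      by_contra h8
      have h9 : 2 * M < a := not_le.1 h8
      nlinarith
    have h6 : 1 / (a : ℝ) ≤ 1 - (b : ℝ) / a := by
      rw [le_sub_iff_add_le, ← add_div, div_le_one ha0]; linarith
    have h7 : 1 / (2 * M) ≤ 1 / (a : ℝ) := one_div_le_one_div_of_le ha0 h5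
    linarith

theorem rat_sep (M : ℝ) (h l h' l' : ℕ) (hh : 1 ≤ h) (hl : 1 ≤ l) (hh' : 1 ≤ h')
    (hl' : 1 ≤ l') (hc : Nat.Coprime h l) (hc' : Nat.Coprime h' l') (hne : (h, l) ≠ (h', l'))
    (hM : (h : ℝ) * l ≤ M) (hM' : (h' : ℝ) * l' ≤ M) :
    1 / (2 * M) ≤ |Real.log ((h : ℝ) / l) - Real.log ((h' : ℝ) / l')| := by
  have h0 : (0 : ℝ) < h := by exact_mod_cast hh
  have l0 : (0 : ℝ) < l := by exact_mod_cast hl
  have h0' : (0 : ℝ) < h' := by exact_mod_cast hh'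
  have l0' : (0 : ℝ) < l' := by exact_mod_cast hl'
  have hM0 : 0 < M := lt_of_lt_of_le (mul_pos h0 l0) hM
  have hprod : ((h * l' : ℕ) : ℝ) * ((h' * l : ℕ) : ℝ) ≤ M ^ 2 := by
    push_cast
    calc (h : ℝ) * l' * (h' * l) = (h * l) * (h' * l') := by ring
      _ ≤ M * M := mul_le_mul hM hM' (mul_pos h0' l0').le hM0.le
      _ = M ^ 2 := by ring
  have hneq : h * l' ≠ h' * l := by
    intro heq
    have e1 : h ∣ h' := by
      have : h ∣ h' * l := ⟨l', heq.symm⟩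
      exact hc.dvd_of_dvd_mul_right this
    have e2 : h' ∣ h := by
      have : h' ∣ h * l' := ⟨l, heq⟩
      exact hc'.dvd_of_dvd_mul_right this
    have e3 : h = h' := Nat.dvd_antisymm e1 e2
    have e4 : l' = l := by
      rw [e3] at heq
      exact Nat.eq_of_mul_eq_mul_left (by omega) heq
    exact hne (by rw [e3, e4])
  have hlog : Real.log ((h : ℝ) / l) - Real.log ((h' : ℝ) / l') =
      Real.log (((h * l' : ℕ) : ℝ) / ((h' * l : ℕ) : ℝ)) := by
    rw [← Real.log_div (div_pos h0 l0).ne' (div_pos h0' l0').ne']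
    congr 1
    push_cast
    field_simp
  rw [hlog]
  have p1 : 1 ≤ h * l' := Nat.one_le_iff_ne_zero.mpr (Nat.mul_ne_zero (by omega) (by omega))
  have p2 : 1 ≤ h' * l := Nat.one_le_iff_ne_zero.mpr (Nat.mul_ne_zero (by omega) (by omega))
  rcases Nat.lt_or_gt_of_ne hneq with hlt | hgt
  · have e1 := sep_aux M (h' * l) (h * l') p1 hlt hM0 (by linarith [hprod])
    have e2 : Real.log (((h * l' : ℕ) : ℝ) / ((h' * l : ℕ) : ℝ)) =
        -Real.log (((h' * l : ℕ) : ℝ) / ((h * l' : ℕ) : ℝ)) := by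
      rw [← Real.log_inv, inv_div]
    rw [e2, abs_neg]
    exact e1.trans (le_abs_self _)
  · exact (sep_aux M (h * l') (h' * l) p2 hgt hM0 hprod).trans (le_abs_self _)

end Pool.Agent.H768R2.SM_T2b
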