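import Pool.Agent.H306R2.SM.Defs

set_option autoImplicit false

namespace Pool.Agent.H768R2.SM_T0c

open Finset Filter Topology MeasureTheory Complex
open Pool.Agent.H306R2 Pool.Agent.H306R2.SM

/- The proofs of `Xf_mul`, `Xf_conj`, `sin_half_ne` are those of `Pool.Agent.H345R2.Chi`. -/

theorem two_pi_ne : (2 * (Real.pi : ℂ)) ≠ 0 := by
  have : (Real.pi : ℂ) ≠ 0 := by exact_mod_cast Real.pi_ne_zero
  simp [this]

theorem Xf_mul (s : ℂ) (h : Complex.sin (Real.pi * s) ≠ 0) : Xf s * Xf (1 - s) = 1 := by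
  have h1 : Complex.cos (Real.pi * (1 - s) / 2) = Complex.sin (Real.pi * s / 2) := by
    have : (Real.pi : ℂ) * (1 - s) / 2 = Real.pi / 2 - Real.pi * s / 2 := by ring
    rw [this, Complex.cos_pi_div_two_sub]
  have h2 : Complex.sin (Real.pi * s) =
      2 * Complex.sin (Real.pi * s / 2) * Complex.cos (Real.pi * s / 2) := by
    rw [← Complex.sin_two_mul]
    congr 1
    ring
  have h3 := Complex.Gamma_mul_Gamma_one_sub s
  have h4 : (2 * (Real.pi : ℂ)) ^ (-s) * (2 * (Real.pi : ℂ)) ^ (-(1 - s)) = (2 * (Real.pi : ℂ))⁻¹ := by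
    rw [← Complex.cpow_add _ _ two_pi_ne, ← Complex.cpow_neg_one]
    congr 1
    ring
  have hpi : (Real.pi : ℂ) ≠ 0 := by exact_mod_cast Real.pi_ne_zero
  calc Xf s * Xf (1 - s)
      = 4 * ((2 * (Real.pi : ℂ)) ^ (-s) * (2 * (Real.pi : ℂ)) ^ (-(1 - s))) *
          (Complex.Gamma s * Complex.Gamma (1 - s)) *
          (Complex.sin (Real.pi * s / 2) * Complex.cos (Real.pi * s / 2)) := by
        rw [Xf, Xf, h1]
        ring
    _ = 4 * (2 * (Real.pi : ℂ))⁻¹ * (Real.pi / Complex.sin (Real.pi * s)) *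
          (Complex.sin (Real.pi * s) / 2) := by
        rw [h4, h3, h2]
        ring
    _ = 1 := by
        field_simp
        norm_num

theorem conj_two : (starRingEnd ℂ) (2 : ℂ) = 2 := Complex.conj_ofNat 2

theorem Xf_conj (s : ℂ) : Xf ((starRingEnd ℂ) s) = (starRingEnd ℂ) (Xf s) := by
  have harg : (2 * (Real.pi : ℂ)).arg ≠ Real.pi := by
    have : (2 * (Real.pi : ℂ)) = ((2 * Real.pi : ℝ) : ℂ) := by push_cast; ring
    rw [this, Complex.arg_ofReal_of_nonneg (by positivity)]
    exact Real.pi_ne_zero.symm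
  have h1 : (2 * (Real.pi : ℂ)) ^ (-(starRingEnd ℂ) s) =
      (starRingEnd ℂ) ((2 * (Real.pi : ℂ)) ^ (-s)) := by
    have h3 : (starRingEnd ℂ) (2 * (Real.pi : ℂ)) = 2 * (Real.pi : ℂ) := by
      rw [map_mul, conj_two, conj_ofReal]
    have h4 := Complex.cpow_conj (2 * (Real.pi : ℂ)) (-s) harg
    rw [h3, map_neg] at h4
    exact h4
  rw [Xf, Xf, map_mul, map_mul, map_mul, h1, Complex.Gamma_conj, ← Complex.cos_conj]
  congr 2
  · rw [conj_two]
  · rw [map_div₀, map_mul, conj_two, conj_ofReal]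

theorem sin_half_ne (t : ℝ) : Complex.sin (Real.pi * (1 / 2 + (t : ℂ) * I)) ≠ 0 := by
  have h1 : (Real.pi : ℂ) * (1 / 2 + (t : ℂ) * I) = (Real.pi * t : ℝ) * I + Real.pi / 2 := by
    push_cast; ring
  rw [h1, Complex.sin_add_pi_div_two, Complex.cos_mul_I]
  have h2 : Complex.cosh ((Real.pi * t : ℝ) : ℂ) = ((Real.cosh (Real.pi * t) : ℝ) : ℂ) := by
    rw [Complex.ofReal_cosh]
  rw [h2]
  exact_mod_cast (Real.cosh_pos _).ne'

theorem one_sub_cl (t : ℝ) : 1 - cl t = (starRingEnd ℂ) (cl t) := by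
  unfold cl
  apply Complex.ext
  · simp; norm_num
  · simp

theorem Xf_line (t : ℝ) : ‖Xf (cl t)‖ = 1 := by
  have h1 := Xf_mul (cl t) (sin_half_ne t)
  rw [one_sub_cl, Xf_conj, Complex.mul_conj, Complex.normSq_eq_norm_sq] at h1
  have h2 : ‖Xf (cl t)‖ ^ 2 = 1 := by exact_mod_cast h1
  have h3 : 0 ≤ ‖Xf (cl t)‖ := norm_nonneg _
  nlinarith

theorem Xf_fe (t : ℝ) : Xf (cl t) * riemannZeta (cl t) = (starRingEnd ℂ) (riemannZeta (cl t)) := by
  have hre : (cl t).re = 1 / 2 := by unfold cl; simp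
  have h1 : ∀ n : ℕ, cl t ≠ -n := by
    intro n h
    have h2 := congrArg Complex.re h
    rw [hre, Complex.neg_re, Complex.natCast_re] at h2
    have h3 : (0 : ℝ) ≤ n := Nat.cast_nonneg n
    linarith
  have h2 : cl t ≠ 1 := by
    intro h
    have h2 := congrArg Complex.re h
    rw [hre, Complex.one_re] at h2
    norm_num at h2
  have h3 := riemannZeta_one_sub h1 h2
  rw [one_sub_cl, riemannZeta_conj] at h3
  rw [h3]
  rfl

theorem Xf_continuous : Continuous (fun t : ℝ => Xf (cl t)) := by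
  have hcl : Continuous cl := by
    unfold cl; fun_prop
  have hG : Continuous (fun t : ℝ => Complex.Gamma (cl t)) := by
    rw [continuous_iff_continuousAt]
    intro t
    have hd : DifferentiableAt ℂ Complex.Gamma (cl t) := by
      apply Complex.differentiableAt_Gamma
      intro m h
      have h2 := congrArg Complex.re h
      have hre : (cl t).re = 1 / 2 := by unfold cl; simp
      rw [hre, Complex.neg_re, Complex.natCast_re] at h2
      have h3 : (0 : ℝ) ≤ m := Nat.cast_nonneg m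
      linarith
    exact ContinuousAt.comp (f := cl) (g := Complex.Gamma) hd.continuousAt hcl.continuousAt
  have hP : Continuous (fun t : ℝ => (2 * (Real.pi : ℂ)) ^ (-(cl t))) := by
    apply Continuous.const_cpow hcl.neg
    left
    exact two_pi_ne
  unfold Xf
  exact ((continuous_const.mul hP).mul hG).mul
    (Complex.continuous_cos.comp ((continuous_const.mul hcl).div_const _))

end Pool.Agent.H768R2.SM_T0c
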