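import Pool.Agent.H788R2.Cheb.Defs
import Pool.Agent.H801R2.CX.Borsuk
import Pool.Agent.Helper240.ZFM.R3
import Pool.Agent.Helper240.ZFM.ConvA
import Pool.Agent.Helper114.KApprox

/-!
# Runge-type approximations (task R of `S04067`)
-/

set_option autoImplicit false

open Set Filter Topology Metric

namespace Pool.Agent.H788R2.Cheb

open Pool.Agent.Helper114.Konig (An chiP chi_zero chi_one)

/-- inverse of an injective holomorphic function -/
theorem inverse_diff {h : ℂ → ℂ} {U : Set ℂ} (hU : IsOpen U) (hd : DifferentiableOn ℂ h U)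
    (hi : InjOn h U) : IsOpen (h '' U) ∧ ∃ g : ℂ → ℂ, DifferentiableOn ℂ g (h '' U) ∧
      (∀ z ∈ U, g (h z) = z) ∧ ∀ z ∈ U, deriv h z ≠ 0 := by
  obtain ⟨h1, g, h2, h3, -⟩ := Pool.Agent.Helper405.Conv.inv_facts hU hd hi
  exact ⟨h1, g, h2, h3, fun z hz => Pool.Agent.Helper405.Conv.deriv_ne_zero_of_injOn hU hd hi hz⟩

/-- Runge approximation on the image of a retract. -/
theorem poly_retract {g G p : ℂ → ℂ} {K U : Set ℂ} (hK : IsCompact K) (hU : IsOpen U)
    (hKU : K ⊆ U) (hp : Continuous p) (hpK : ∀ z, p z ∈ K) (hpid : ∀ z ∈ K, p z = z)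
    (hg : DifferentiableOn ℂ g U) (hi : InjOn g U) (hG : DifferentiableOn ℂ G U)
    {δ : ℝ} (hδ : 0 < δ) :
    ∃ P : Polynomial ℂ, ∀ t ∈ K, ‖P.eval (g t) - G t‖ < δ := by
  obtain ⟨hgo, gi, hgi, hgl, -⟩ := inverse_diff hU hg hi
  have hKg : IsCompact (g '' K) := hK.image_of_continuousOn (hg.continuousOn.mono hKU)
  have hconn : IsConnected (g '' K)ᶜ := by
    apply Pool.Agent.H801R2.CX.borsuk hKg
    intro q hq
    have hFc : Continuous (fun ζ => g (p ζ) - q) := by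
      have h1 : ContinuousOn g K := hg.continuousOn.mono hKU
      exact (h1.comp_continuous hp hpK).sub continuous_const
    have hF0 : ∀ ζ, g (p ζ) - q ≠ 0 := by
      intro ζ h0
      apply hq
      rw [← sub_eq_zero.1 h0]
      exact ⟨p ζ, hpK ζ, rfl⟩
    obtain ⟨a, ha1, ha2, -⟩ := Pool.Agent.H801R2.CX.exists_log isOpen_univ
      Pool.Agent.H801R2.CX.simplyConnected_univ (q := fun ζ => g (p ζ) - q)
      hFc.continuousOn (fun z _ => hF0 z) (a := 0) (mem_univ _)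
      (b := Complex.log (g (p 0) - q)) (Complex.exp_log (hF0 0))
    refine ⟨fun z => a (gi z), ?_, ?_⟩
    · apply ha1.comp _ (fun _ _ => mem_univ _)
      apply hgi.continuousOn.mono
      exact image_mono hKU
    · rintro _ ⟨z, hz, rfl⟩
      simp only
      rw [hgl z (hKU hz), ha2 _ (mem_univ _), hpid z hz]
  have hGg : DifferentiableOn ℂ (fun z => G (gi z)) (g '' U) := by
    apply hG.comp hgi
    rintro _ ⟨z, hz, rfl⟩
    rw [hgl z hz]
    exact hz
  obtain ⟨P, hP⟩ := ZFM.J_r3.runge hKg hconn hgo (image_mono hKU) _ hGg δ hδ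
  refine ⟨P, fun t ht => ?_⟩
  have h1 := hP (g t) ⟨t, ht, rfl⟩
  rw [hgl t (hKU ht)] at h1
  rw [norm_sub_rev]
  exact h1

theorem isOpen_Sq : IsOpen Sq := by
  have h1 : IsOpen {t : ℂ | |t.re| < 1} := isOpen_lt (by fun_prop) continuous_const
  have h2 : IsOpen {t : ℂ | |t.im| < 16 / 5} := isOpen_lt (by fun_prop) continuous_const
  exact h1.inter h2

theorem Rc_sub_Sq : Rc ⊆ Sq := by
  rintro t ⟨h1, h2⟩
  exact ⟨by linarith, by linarith⟩

theorem isCompact_Rc : IsCompact Rc := by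
  apply Metric.isCompact_of_isClosed_isBounded
  · have h1 : IsClosed {t : ℂ | |t.re| ≤ 99 / 100} := isClosed_le (by fun_prop) continuous_const
    have h2 : IsClosed {t : ℂ | |t.im| ≤ 31 / 10} := isClosed_le (by fun_prop) continuous_const
    exact h1.inter h2
  · rw [isBounded_iff_forall_norm_le]
    refine ⟨5, ?_⟩
    rintro t ⟨h1, h2⟩
    have := Complex.norm_le_abs_re_add_abs_im t
    linarith

/-- the clamp onto the rectangle -/
noncomputable def clampRc (z : ℂ) : ℂ :=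
  ((max (-(99 / 100)) (min (99 / 100) z.re) : ℝ) : ℂ) +
    ((max (-(31 / 10)) (min (31 / 10) z.im) : ℝ) : ℂ) * Complex.I

theorem clampRc_re (z : ℂ) : (clampRc z).re = max (-(99 / 100)) (min (99 / 100) z.re) := by
  unfold clampRc
  simp only [Complex.add_re, Complex.ofReal_re, Complex.mul_re, Complex.I_re, Complex.I_im,
    Complex.ofReal_im]
  ring

theorem clampRc_im (z : ℂ) : (clampRc z).im = max (-(31 / 10)) (min (31 / 10) z.im) := by
  unfold clampRc
  simp only [Complex.add_im, Complex.ofReal_re, Complex.mul_im, Complex.I_re, Complex.I_im,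
    Complex.ofReal_im]
  ring

theorem poly_rect {g G : ℂ → ℂ} (hg : DifferentiableOn ℂ g Sq) (hi : InjOn g Sq)
    (hG : DifferentiableOn ℂ G Sq) {δ : ℝ} (hδ : 0 < δ) :
    ∃ P : Polynomial ℂ, ∀ t ∈ Rc, ‖P.eval (g t) - G t‖ < δ := by
  apply poly_retract isCompact_Rc isOpen_Sq Rc_sub_Sq (p := clampRc) _ _ _ hg hi hG hδ
  · unfold clampRc
    fun_prop
  · intro z
    refine ⟨?_, ?_⟩
    · rw [clampRc_re, abs_le]
      exact ⟨le_max_left _ _, max_le (by norm_num) (min_le_left _ _)⟩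
    · rw [clampRc_im, abs_le]
      exact ⟨le_max_left _ _, max_le (by norm_num) (min_le_left _ _)⟩
  · rintro z ⟨h1, h2⟩
    rw [abs_le] at h1 h2
    apply Complex.ext
    · rw [clampRc_re, min_eq_right h1.2, max_eq_right h1.1]
    · rw [clampRc_im, min_eq_right h2.2, max_eq_right h2.1]

theorem poly_disc {g G : ℂ → ℂ} {r R : ℝ} (hr : 0 < r) (hrR : r < R)
    (hg : DifferentiableOn ℂ g (ball 0 R)) (hi : InjOn g (ball 0 R))
    (hG : DifferentiableOn ℂ G (ball 0 R)) {δ : ℝ} (hδ : 0 < δ) :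
    ∃ P : Polynomial ℂ, ∀ w : ℂ, ‖w‖ ≤ r → ‖P.eval (g w) - G w‖ < δ := by
  have hmax : ∀ ζ : ℂ, 0 < max r ‖ζ‖ := fun ζ => lt_of_lt_of_le hr (le_max_left _ _)
  obtain ⟨P, hP⟩ := poly_retract (isCompact_closedBall (0 : ℂ) r) isOpen_ball
    (closedBall_subset_ball hrR) (p := fun ζ => ((r / max r ‖ζ‖ : ℝ) : ℂ) * ζ)
    (by
      apply Continuous.mul _ continuous_id
      apply Complex.continuous_ofReal.comp
      apply Continuous.div continuous_const (by fun_prop)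
      intro ζ
      exact (hmax ζ).ne')
    (by
      intro ζ
      rw [mem_closedBall_zero_iff]
      rw [norm_mul, Complex.norm_real, Real.norm_of_nonneg (div_nonneg hr.le (hmax ζ).le),
        div_mul_eq_mul_div, div_le_iff₀ (hmax ζ)]
      exact mul_le_mul_of_nonneg_left (le_max_right _ _) hr.le)
    (by
      intro ζ hζ
      rw [mem_closedBall_zero_iff] at hζ
      rw [max_eq_left hζ, div_self hr.ne']
      simp)
    hg hi hG hδ
  exact ⟨P, fun w hw => hP w (mem_closedBall_zero_iff.2 hw)⟩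

theorem Yf_diff : Differentiable ℂ Yf := by
  unfold Yf
  fun_prop

theorem Yf_inj' : InjOn Yf Sq := by
  intro s hs t ht h
  by_contra hne
  have h1 : (s - t) * (3 - (s ^ 2 + s * t + t ^ 2)) = 0 := by
    unfold Yf at h
    linear_combination h
  rcases mul_eq_zero.1 h1 with h2 | h2
  · exact hne (sub_eq_zero.1 h2)
  · have h3 := congrArg Complex.re h2
    simp only [Complex.sub_re, Complex.add_re, pow_two, Complex.mul_re, Complex.zero_re,
      Complex.re_ofNat] at h3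
    have h4 := abs_lt.1 hs.1
    have h5 := abs_lt.1 ht.1
    nlinarith [sq_nonneg (s.im + t.im), sq_nonneg s.im, sq_nonneg t.im, sq_nonneg (s.re - t.re),
      mul_pos (show 0 < 1 - s.re by linarith) (show 0 < 1 + s.re by linarith),
      mul_pos (show 0 < 1 - t.re by linarith) (show 0 < 1 + t.re by linarith)]

theorem Yf_ne' : ∀ t ∈ Sq, Yf t ≠ 0 := by
  rintro t ⟨h1, h2⟩ h0
  have h3 : (2 - t) * (1 + t) ^ 2 = 0 := by
    unfold Yf at h0
    linear_combination h0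
  rw [abs_lt] at h1
  rcases mul_eq_zero.1 h3 with h4 | h4
  · have h5 := congrArg Complex.re h4
    simp at h5
    linarith
  · have h6 := pow_eq_zero_iff (two_ne_zero) |>.1 h4
    have h5 := congrArg Complex.re h6
    simp at h5
    linarith

theorem norm_Yf' : ∀ t ∈ Rc, ‖Yf t‖ ≤ 50 := by
  rintro t ⟨h1, h2⟩
  have h3 : ‖t‖ ≤ 33 / 10 := by
    have h4 : ‖t‖ ^ 2 ≤ (33 / 10) ^ 2 := by
      rw [Complex.sq_norm, Complex.normSq_apply]
      have h5 := sq_abs t.re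
      have h6 := sq_abs t.im
      have h7 : |t.re| ^ 2 ≤ (99 / 100) ^ 2 := pow_le_pow_left₀ (abs_nonneg _) h1 2
      have h8 : |t.im| ^ 2 ≤ (31 / 10) ^ 2 := pow_le_pow_left₀ (abs_nonneg _) h2 2
      nlinarith
    exact le_of_sq_le_sq h4 (by norm_num)
  have h9 : ‖t‖ ^ 3 ≤ (33 / 10) ^ 3 := pow_le_pow_left₀ (norm_nonneg _) h3 3
  unfold Yf
  calc ‖2 + 3 * t - t ^ 3‖ ≤ ‖(2 : ℂ) + 3 * t‖ + ‖t ^ 3‖ := norm_sub_le _ _
    _ ≤ ‖(2 : ℂ)‖ + ‖3 * t‖ + ‖t ^ 3‖ := by
      have := norm_add_le (2 : ℂ) (3 * t)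
      linarith
    _ = 2 + 3 * ‖t‖ + ‖t‖ ^ 3 := by
      rw [norm_mul, norm_pow]
      simp
    _ ≤ 50 := by nlinarith

theorem cut_small {c d : ℂ} {β B : ℝ} (hc : ‖c‖ ≤ β) (hd : ‖d‖ ≤ B) : ‖c * d‖ ≤ β * B := by
  rw [norm_mul]
  exact mul_le_mul hc hd (norm_nonneg _) ((norm_nonneg _).trans hc)

theorem cut_near {c d t : ℂ} {β B η : ℝ} (hc : ‖c - 1‖ ≤ β) (hd : ‖d‖ ≤ B) (hdt : ‖d - t‖ ≤ η) :
    ‖c * d - t‖ ≤ β * B + η := by
  have h1 : c * d - t = (c - 1) * d + (d - t) := by ring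
  rw [h1]
  exact (norm_add_le _ _).trans (add_le_add (cut_small hc hd) hdt)

theorem cutoffs : ∃ ρ : ℝ, 0 < ρ ∧ ρ < 1 ∧ (∀ t ∈ Rc, 2 * ρ < ‖Yf t‖) ∧
    ∀ δ : ℝ, 0 < δ → ∃ χ : Fin 4 → Polynomial ℂ, ∀ i j : Fin 4, ∀ z ∈ Dd ρ j,
      ‖(χ i).eval z - (if i = j then 1 else 0)‖ < δ := by
  -- the separating polynomial
  have hG : DifferentiableOn ℂ (fun t => 1 / Yf t) Sq :=
    (differentiableOn_const _).div Yf_diff.differentiableOn Yf_ne'
  obtain ⟨P, hP⟩ := poly_rect (g := Yf) (G := fun t => 1 / Yf t) Yf_diff.differentiableOn Yf_inj' hG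
    (δ := 1 / 200) (by norm_num)
  set s : Polynomial ℂ := Polynomial.X * P with hs
  have hs1 : ∀ z ∈ Yf '' Rc, ‖s.eval z - 1‖ ≤ 1 / 4 := by
    rintro _ ⟨t, ht, rfl⟩
    have h1 := hP t ht
    have h2 := norm_Yf' t ht
    have h3 := Yf_ne' t (Rc_sub_Sq ht)
    have h4 : s.eval (Yf t) - 1 = Yf t * (P.eval (Yf t) - 1 / Yf t) := by
      rw [hs, Polynomial.eval_mul, Polynomial.eval_X]
      field_simp
    rw [h4, norm_mul]
    have := mul_le_mul h2 h1.le (norm_nonneg _) (by norm_num)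
    linarith
  obtain ⟨ρ1, hρ1, hρ1s⟩ : ∃ ρ1 > 0, ∀ z : ℂ, ‖z‖ < ρ1 → ‖s.eval z‖ ≤ 1 / 4 := by
    have h1 : ContinuousAt (fun z : ℂ => s.eval z) 0 := s.continuous.continuousAt
    have h2 : s.eval 0 = 0 := by
      rw [hs, Polynomial.eval_mul, Polynomial.eval_X, zero_mul]
    obtain ⟨ρ1, h3, h4⟩ := Metric.continuousAt_iff.1 h1 (1 / 4) (by norm_num)
    refine ⟨ρ1, h3, fun z hz => ?_⟩
    have h5 := h4 (x := z) (by rw [dist_zero_right]; exact hz)
    rw [h2, dist_zero_right] at h5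
    exact h5.le
  obtain ⟨ρ2, hρ2, hρ2s⟩ : ∃ ρ2 > 0, ∀ t ∈ Rc, ρ2 ≤ ‖Yf t‖ := by
    have hne : Rc.Nonempty := ⟨0, by simp [Rc]; norm_num⟩
    obtain ⟨t0, ht0, hmin⟩ := isCompact_Rc.exists_isMinOn hne
      (Yf_diff.continuous.norm.continuousOn)
    exact ⟨‖Yf t0‖, norm_pos_iff.2 (Yf_ne' t0 (Rc_sub_Sq ht0)), fun t ht => hmin ht⟩
  set ρ : ℝ := min (1 / 2) (min (ρ1 / 2) (ρ2 / 4)) with hρ
  have hρ0 : 0 < ρ := by positivity
  have hρa : ρ ≤ 1 / 2 := min_le_left _ _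
  have hρb : ρ ≤ ρ1 / 2 := (min_le_right _ _).trans (min_le_left _ _)
  have hρc : ρ ≤ ρ2 / 4 := (min_le_right _ _).trans (min_le_right _ _)
  refine ⟨ρ, hρ0, by linarith, fun t ht => ?_, ?_⟩
  · have := hρ2s t ht
    linarith
  intro δ hδ
  -- first cut-off
  obtain ⟨n, hn⟩ := exists_pow_lt_of_lt_one (show 0 < δ / 2 by positivity)
    (show (7 / 8 : ℝ) < 1 by norm_num)
  set η : ℝ := (7 / 8) ^ n / 4 with hη
  have hηδ : η < δ / 2 := by
    have : 0 < (7 / 8 : ℝ) ^ n := by positivity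
    rw [hη]
    linarith
  set A : Polynomial ℂ := (chiP n).comp s with hA
  set A' : Polynomial ℂ := A.comp (Polynomial.X - Polynomial.C 1000) with hA'
  have hAe : ∀ z, A.eval z = (chiP n).eval (s.eval z) := fun z => by
    rw [hA, Polynomial.eval_comp]
  have hA'e : ∀ z, A'.eval z = A.eval (z - 1000) := fun z => by
    rw [hA', Polynomial.eval_comp]
    simp
  have hA0 : ∀ z : ℂ, ‖z‖ ≤ ρ → ‖A.eval z - 0‖ ≤ η := by
    intro z hz
    rw [sub_zero, hAe]
    exact chi_zero n _ (hρ1s z (by linarith))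
  have hA1 : ∀ z ∈ Yf '' Rc, ‖A.eval z - 1‖ ≤ η := by
    intro z hz
    rw [hAe]
    exact chi_one n _ (hs1 z hz)
  -- bound on a large disc
  obtain ⟨B, hB1, hB⟩ : ∃ B : ℝ, 1 ≤ B ∧ ∀ z : ℂ, ‖z‖ ≤ 2000 →
      ‖A.eval z‖ ≤ B ∧ ‖1 - A.eval z‖ ≤ B ∧ ‖A'.eval z‖ ≤ B ∧ ‖1 - A'.eval z‖ ≤ B := by
    obtain ⟨B1, hB1⟩ := (isCompact_closedBall (0 : ℂ) 2000).exists_bound_of_continuousOn
      A.continuous.continuousOn
    obtain ⟨B2, hB2⟩ := (isCompact_closedBall (0 : ℂ) 2000).exists_bound_of_continuousOn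
      A'.continuous.continuousOn
    refine ⟨1 + |B1| + |B2|, by have h1 := abs_nonneg B1; have h2 := abs_nonneg B2; linarith, ?_⟩
    intro z hz
    have h1 := hB1 z (mem_closedBall_zero_iff.2 hz)
    have h2 := hB2 z (mem_closedBall_zero_iff.2 hz)
    have h3 := le_abs_self B1
    have h4 := le_abs_self B2
    have h5 := abs_nonneg B1
    have h6 := abs_nonneg B2
    have h7 : ‖1 - A.eval z‖ ≤ 1 + ‖A.eval z‖ := by
      have := norm_sub_le (1 : ℂ) (A.eval z)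
      rwa [norm_one] at this
    have h8 : ‖1 - A'.eval z‖ ≤ 1 + ‖A'.eval z‖ := by
      have := norm_sub_le (1 : ℂ) (A'.eval z)
      rwa [norm_one] at this
    exact ⟨by linarith, by linarith, by linarith, by linarith⟩
  obtain ⟨m, hm⟩ := exists_pow_lt_of_lt_one (show 0 < δ / (2 * B) by positivity)
    (show (7 / 8 : ℝ) < 1 by norm_num)
  set β : ℝ := (7 / 8) ^ m / 4 with hβ
  have hβB : β * B < δ / 2 := by
    have h1 : (7 / 8 : ℝ) ^ m * B < δ / 2 := by
      calc (7 / 8 : ℝ) ^ m * B < δ / (2 * B) * B := mul_lt_mul_of_pos_right hm (by linarith)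
        _ = δ / 2 := by field_simp
    have h2 : 0 < (7 / 8 : ℝ) ^ m * B := by positivity
    rw [hβ]
    linarith
  set b : Polynomial ℂ := (chiP m).comp (Polynomial.C (1 / 1000) * Polynomial.X) with hb
  have hbe : ∀ z, b.eval z = (chiP m).eval (1 / 1000 * z) := fun z => by
    rw [hb, Polynomial.eval_comp]
    simp
  have hb0 : ∀ z : ℂ, ‖z‖ ≤ 50 → ‖b.eval z‖ ≤ β := by
    intro z hz
    rw [hbe]
    apply chi_zero
    rw [norm_mul]
    simp
    linarith
  have hb1 : ∀ z : ℂ, ‖z - 1000‖ ≤ 50 → ‖b.eval z - 1‖ ≤ β := by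
    intro z hz
    rw [hbe]
    apply chi_one
    have : (1 / 1000 * z - 1 : ℂ) = 1 / 1000 * (z - 1000) := by ring
    rw [this, norm_mul]
    simp
    linarith
  have hb0' : ∀ z : ℂ, ‖z‖ ≤ 50 → ‖(1 - b.eval z) - 1‖ ≤ β := by
    intro z hz
    have : (1 - b.eval z) - 1 = - b.eval z := by ring
    rw [this, norm_neg]
    exact hb0 z hz
  have hb1' : ∀ z : ℂ, ‖z - 1000‖ ≤ 50 → ‖1 - b.eval z‖ ≤ β := by
    intro z hz
    rw [norm_sub_rev]
    exact hb1 z hz
  have hfin : β * B + η < δ := by linarith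
  have hfin' : β * B < δ := by
    have : 0 < (7 / 8 : ℝ) ^ n := by positivity
    linarith
  -- position of the regions
  have hD0 : ∀ z ∈ Dd ρ 0, ‖z‖ ≤ 50 ∧ ‖z‖ ≤ 2000 ∧ ‖z‖ ≤ ρ := by
    intro z hz
    have h1 : z ∈ closedBall (0 : ℂ) ρ := hz
    rw [mem_closedBall_zero_iff] at h1
    exact ⟨by linarith, by linarith, h1⟩
  have hD1 : ∀ z ∈ Dd ρ 1, ‖z‖ ≤ 50 ∧ ‖z‖ ≤ 2000 ∧ z ∈ Yf '' Rc := by
    intro z hz
    have h1 : z ∈ Yf '' Rc := hz
    obtain ⟨t, ht, rfl⟩ := h1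
    have := norm_Yf' t ht
    exact ⟨this, by linarith, ⟨t, ht, rfl⟩⟩
  have hshift : ∀ z : ℂ, ‖z - 1000‖ ≤ 50 → ‖z‖ ≤ 2000 := by
    intro z hz
    have h1 : ‖z‖ ≤ ‖z - 1000‖ + ‖(1000 : ℂ)‖ := by
      have := norm_add_le (z - 1000) (1000 : ℂ)
      rwa [sub_add_cancel] at this
    have h2 : ‖(1000 : ℂ)‖ = 1000 := by simp
    linarith
  have hD2 : ∀ z ∈ Dd ρ 2, ‖z - 1000‖ ≤ 50 ∧ ‖z‖ ≤ 2000 ∧ ‖z - 1000‖ ≤ ρ := by
    intro z hz
    have h1 : z ∈ closedBall (1000 : ℂ) ρ := hz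
    rw [mem_closedBall, dist_eq_norm] at h1
    exact ⟨by linarith, hshift z (by linarith), h1⟩
  have hD3 : ∀ z ∈ Dd ρ 3, ‖z - 1000‖ ≤ 50 ∧ ‖z‖ ≤ 2000 ∧ z - 1000 ∈ Yf '' Rc := by
    intro z hz
    have h1 : z ∈ (fun z => 1000 + z) '' (Yf '' Rc) := hz
    obtain ⟨_, ⟨t, ht, rfl⟩, rfl⟩ := h1
    have h2 := norm_Yf' t ht
    have h3 : (1000 : ℂ) + Yf t - 1000 = Yf t := by ring
    simp only
    rw [h3]
    exact ⟨h2, hshift _ (by rw [h3]; exact h2), ⟨t, ht, rfl⟩⟩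
  -- near one
  have hneg : ∀ x t : ℂ, ‖x - t‖ ≤ η → ‖(1 - x) - (1 - t)‖ ≤ η := by
    intro x t h
    have : (1 - x) - (1 - t) = -(x - t) := by ring
    rw [this, norm_neg]
    exact h
  refine ⟨![(1 - b) * (1 - A), (1 - b) * A, b * (1 - A'), b * A'], ?_⟩
  intro i j z hz
  fin_cases j
  · obtain ⟨h1, h2, h3⟩ := hD0 z hz
    obtain ⟨k1, k2, k3, k4⟩ := hB z h2
    have a0 := hA0 z h3
    have a1 := hneg _ _ a0
    have c1 := hb0' z h1
    have c0 := hb0 z h1
    fin_cases i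
    · have := cut_near c1 k2 a1
      simpa using lt_of_le_of_lt this hfin
    · have := cut_near c1 k1 a0
      simpa using lt_of_le_of_lt this hfin
    · have := cut_small c0 k4
      simpa using lt_of_le_of_lt this hfin'
    · have := cut_small c0 k3
      simpa using lt_of_le_of_lt this hfin'
  · obtain ⟨h1, h2, h3⟩ := hD1 z hz
    obtain ⟨k1, k2, k3, k4⟩ := hB z h2
    have a0 := hA1 z h3
    have a1 := hneg _ _ a0
    have c1 := hb0' z h1
    have c0 := hb0 z h1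
    fin_cases i
    · have := cut_near c1 k2 a1
      simpa using lt_of_le_of_lt this hfin
    · have := cut_near c1 k1 a0
      simpa using lt_of_le_of_lt this hfin
    · have := cut_small c0 k4
      simpa using lt_of_le_of_lt this hfin'
    · have := cut_small c0 k3
      simpa using lt_of_le_of_lt this hfin'
  · obtain ⟨h1, h2, h3⟩ := hD2 z hz
    obtain ⟨k1, k2, k3, k4⟩ := hB z h2
    have a0 := hA0 (z - 1000) h3
    rw [← hA'e] at a0
    have a1 := hneg _ _ a0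
    have c1 := hb1' z h1
    have c0 := hb1 z h1
    fin_cases i
    · have := cut_small c1 k2
      simpa using lt_of_le_of_lt this hfin'
    · have := cut_small c1 k1
      simpa using lt_of_le_of_lt this hfin'
    · have := cut_near c0 k4 a1
      simpa using lt_of_le_of_lt this hfin
    · have := cut_near c0 k3 a0
      simpa using lt_of_le_of_lt this hfin
  · obtain ⟨h1, h2, h3⟩ := hD3 z hz
    obtain ⟨k1, k2, k3, k4⟩ := hB z h2
    have a0 := hA1 (z - 1000) h3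
    rw [← hA'e] at a0
    have a1 := hneg _ _ a0
    have c1 := hb1' z h1
    have c0 := hb1 z h1
    fin_cases i
    · have := cut_small c1 k2
      simpa using lt_of_le_of_lt this hfin'
    · have := cut_small c1 k1
      simpa using lt_of_le_of_lt this hfin'
    · have := cut_near c0 k4 a1
      simpa using lt_of_le_of_lt this hfin
    · have := cut_near c0 k3 a0
      simpa using lt_of_le_of_lt this hfin

end Pool.Agent.H788R2.Cheb
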