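import Pool.Agent.H531R2.D4.ShDefs

/-!
# Shpilka-Volkovich generator (task H)
-/

set_option autoImplicit false

namespace Pool.Agent.H531R2.D4

section H
variable {K : Type} [Field K] [CharZero K]

/-- the points `∑ l, u l * ∏ j ≠ i, (w l - j)` -/
def sv' {N D : ℕ} (u w : Fin D → K) (i : Fin N) : K :=
  ∑ l, u l * ∏ j ∈ Finset.univ.erase i, (w l - ((j : ℕ) : K))

namespace H768

/-- polynomial version of `sv` -/
noncomputable def svp (L : Type) [Field L] (N D : ℕ) (i : Fin N) : MvPolynomial (Fin D ⊕ Fin D) L :=
  ∑ l, MvPolynomial.X (Sum.inl l) *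
    ∏ j ∈ Finset.univ.erase i, (MvPolynomial.X (Sum.inr l) - MvPolynomial.C ((j : ℕ) : L))

/-- setting the variables outside `S` to zero -/
noncomputable def kill {N : ℕ} {L : Type} [Field L] (S : Finset (Fin N)) :
    MvPolynomial (Fin N) L →ₐ[L] MvPolynomial (Fin N) L :=
  MvPolynomial.aeval (fun i => if i ∈ S then MvPolynomial.X i else 0)

theorem coeff_kill {N : ℕ} {L : Type} [Field L] (e : Fin N →₀ ℕ) (G : MvPolynomial (Fin N) L) :
    MvPolynomial.coeff e (kill e.support G) = MvPolynomial.coeff e G := by
  induction G using MvPolynomial.induction_on' with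
  | monomial e' c =>
    by_cases hsub : e'.support ⊆ e.support
    · have h1 : kill e.support (MvPolynomial.monomial e' c) = MvPolynomial.monomial e' c := by
        unfold kill
        rw [MvPolynomial.aeval_monomial, MvPolynomial.monomial_eq]
        congr 1
        refine Finset.prod_congr rfl fun i hi => ?_
        simp only
        rw [if_pos (hsub hi)]
      rw [h1]
    · have h1 : kill e.support (MvPolynomial.monomial e' c) = 0 := by
        unfold kill
        rw [MvPolynomial.aeval_monomial]
        obtain ⟨i, hi, hi'⟩ := Finset.not_subset.mp hsub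
        have h2 : e'.prod (fun i k => (if i ∈ e.support then (MvPolynomial.X i :
            MvPolynomial (Fin N) L) else 0) ^ k) = 0 := by
          refine Finset.prod_eq_zero hi ?_
          simp only
          rw [if_neg hi', zero_pow (Finsupp.mem_support_iff.mp hi)]
        rw [h2, mul_zero]
      rw [h1, MvPolynomial.coeff_zero, MvPolynomial.coeff_monomial, if_neg]
      rintro rfl
      exact hsub (Finset.Subset.refl _)
  | add p q hp hq => rw [map_add, MvPolynomial.coeff_add, MvPolynomial.coeff_add, hp, hq]

/-- points over the small field where a polynomial over the big field is nonzero -/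
theorem exists_pt {τ : Type} [Finite τ] {L : Type} [Field L] [Algebra K L]
    (G : MvPolynomial τ L) (hG : G ≠ 0) :
    ∃ x : τ → K, MvPolynomial.eval (fun j => algebraMap K L (x j)) G ≠ 0 := by
  by_contra hcon
  push Not at hcon
  apply hG
  refine MvPolynomial.funext_set (p := G) (q := 0) (fun _ : τ => Set.range (algebraMap K L))
    (fun _ => Set.infinite_range_of_injective (algebraMap K L).injective) ?_
  intro y hy
  rw [map_zero]
  choose x hx using fun i => hy i (Set.mem_univ i)
  have := hcon x
  have h2 : (fun j => algebraMap K L (x j)) = y := by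
    funext j
    exact hx j
  rwa [h2] at this

theorem exists_one {N D : ℕ} {L : Type} [Field L] [Algebra K L]
    (G : MvPolynomial (Fin N) L) (hG : G ≠ 0) (hD : G.totalDegree ≤ D) :
    ∃ u w : Fin D → K,
      MvPolynomial.eval (fun j => algebraMap K L (sv' u w j)) G ≠ 0 := by
  classical
  obtain ⟨e, he⟩ := MvPolynomial.ne_zero_iff.mp hG
  have hkill : kill e.support G ≠ 0 := by
    intro h0
    apply he
    rw [← coeff_kill e G, h0, MvPolynomial.coeff_zero]
  obtain ⟨x, hx⟩ := exists_pt (K := K) _ hkill
  -- the support is small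
  have hcard : e.support.card ≤ D := by
    have h1 := MvPolynomial.le_totalDegree (MvPolynomial.mem_support_iff.mpr he)
    have h2 : e.support.card ≤ e.sum fun _ k => k := by
      rw [Finsupp.sum, Finset.card_eq_sum_ones]
      exact Finset.sum_le_sum fun i hi => Nat.one_le_iff_ne_zero.mpr (Finsupp.mem_support_iff.mp hi)
    omega
  obtain ⟨g⟩ : Nonempty (e.support ↪ Fin D) :=
    Function.Embedding.nonempty_of_card_le (by
      rw [Fintype.card_coe, Fintype.card_fin]; exact hcard)
  set c : Fin N → K := fun i => ∏ j ∈ Finset.univ.erase i, (((i : ℕ) : K) - ((j : ℕ) : K)) with hc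
  have hc0 : ∀ i, c i ≠ 0 := by
    intro i
    rw [hc]
    refine Finset.prod_ne_zero_iff.mpr fun j hj => ?_
    rw [sub_ne_zero]
    intro h
    have h1 : (i : ℕ) = (j : ℕ) := by exact_mod_cast h
    exact (Finset.ne_of_mem_erase hj) (Fin.ext h1.symm)
  set w : Fin D → K := fun l => if h : ∃ i, g i = l then (((h.choose : e.support) : Fin N) : ℕ) else 0
    with hw
  set u : Fin D → K := fun l => if h : ∃ i, g i = l then
    x ((h.choose : e.support) : Fin N) / c ((h.choose : e.support) : Fin N) else 0 with hu
  have hchoose : ∀ (i : e.support) (h : ∃ i', g i' = g i), h.choose = i := fun i h =>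
    g.injective h.choose_spec
  have hwg : ∀ i : e.support, w (g i) = (((i : Fin N) : ℕ) : K) := by
    intro i
    have h : ∃ i', g i' = g i := ⟨i, rfl⟩
    rw [hw]
    simp only
    rw [dif_pos h, hchoose i h]
  have hug : ∀ i : e.support, u (g i) = x (i : Fin N) / c (i : Fin N) := by
    intro i
    have h : ∃ i', g i' = g i := ⟨i, rfl⟩
    rw [hu]
    simp only
    rw [dif_pos h, hchoose i h]
  have hsv : ∀ i : Fin N, sv' u w i = if i ∈ e.support then x i else 0 := by
    intro i
    have h1 : sv' u w i = ∑ i' : e.support, u (g i') *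
        ∏ j ∈ Finset.univ.erase i, (w (g i') - ((j : ℕ) : K)) := by
      unfold sv'
      rw [← Finset.sum_map Finset.univ g (fun l => u l * ∏ j ∈ Finset.univ.erase i,
        (w l - ((j : ℕ) : K)))]
      symm
      refine Finset.sum_subset (Finset.subset_univ _) ?_
      intro l _ hl
      have h : ¬ ∃ i', g i' = l := by
        rintro ⟨i', rfl⟩
        exact hl (Finset.mem_map_of_mem g (Finset.mem_univ i'))
      rw [hu]
      simp only
      rw [dif_neg h, zero_mul]
    rw [h1]
    have h2 : ∀ i' : e.support, (i' : Fin N) ≠ i →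
        u (g i') * ∏ j ∈ Finset.univ.erase i, (w (g i') - ((j : ℕ) : K)) = 0 := by
      intro i' hne
      have : ∏ j ∈ Finset.univ.erase i, (w (g i') - ((j : ℕ) : K)) = 0 := by
        refine Finset.prod_eq_zero (Finset.mem_erase.mpr ⟨hne, Finset.mem_univ _⟩) ?_
        rw [hwg, sub_self]
      rw [this, mul_zero]
    split_ifs with hi
    · rw [Finset.sum_eq_single (⟨i, hi⟩ : e.support)]
      · rw [hwg, hug]
        have := hc0 i
        show x i / c i * c i = x i
        field_simp
      · intro i' _ hne
        exact h2 i' (fun h => hne (Subtype.ext h))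
      · intro h
        exact absurd (Finset.mem_univ _) h
    · refine Finset.sum_eq_zero fun i' _ => h2 i' ?_
      rintro rfl
      exact hi i'.2
  refine ⟨u, w, ?_⟩
  have hfin : MvPolynomial.eval (fun j => algebraMap K L (sv' u w j)) G =
      MvPolynomial.eval (fun j => algebraMap K L (x j)) (kill e.support G) := by
    have h1 : (MvPolynomial.eval (fun j => algebraMap K L (x j))).comp
        (kill e.support : MvPolynomial (Fin N) L →ₐ[L] MvPolynomial (Fin N) L).toRingHom =
        MvPolynomial.eval (fun j => algebraMap K L (sv' u w j)) := by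
      apply MvPolynomial.ringHom_ext
      · intro r
        simp [kill]
      · intro i
        rw [RingHom.comp_apply]
        have h2 : (kill e.support : MvPolynomial (Fin N) L →ₐ[L] MvPolynomial (Fin N) L).toRingHom
            (MvPolynomial.X i) = if i ∈ e.support then MvPolynomial.X i else 0 :=
          MvPolynomial.aeval_X _ i
        rw [h2, MvPolynomial.eval_X, hsv i]
        split_ifs
        · rw [MvPolynomial.eval_X]
        · rw [map_zero, map_zero]
    rw [← h1]
    rfl
  rw [hfin]
  exact hx

end H768

/-- Shpilka-Volkovich: every finite family of nonzero polynomials of degree at most `D` over an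
extension field is simultaneously nonzero at some `sv u w` -/
theorem exists_sv' {N D : ℕ} {L : Type} [Field L] [Algebra K L] {ι : Type} (s : Finset ι)
    (G : ι → MvPolynomial (Fin N) L) (hG : ∀ i ∈ s, G i ≠ 0) (hD : ∀ i ∈ s, (G i).totalDegree ≤ D) :
    ∃ u w : Fin D → K, ∀ i ∈ s,
      MvPolynomial.eval (fun j => algebraMap K L (sv' u w j)) (G i) ≠ 0 := by
  classical
  have heval : ∀ (y : Fin D ⊕ Fin D → K) (P : MvPolynomial (Fin N) L),
      MvPolynomial.eval (fun j => algebraMap K L (y j)) (MvPolynomial.aeval (H768.svp L N D) P) =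
        MvPolynomial.eval (fun j => algebraMap K L (sv' (fun l => y (Sum.inl l))
          (fun l => y (Sum.inr l)) j)) P := by
    intro y P
    have h1 : (MvPolynomial.eval (fun j => algebraMap K L (y j))).comp
        (MvPolynomial.aeval (H768.svp L N D) :
          MvPolynomial (Fin N) L →ₐ[L] MvPolynomial (Fin D ⊕ Fin D) L).toRingHom =
        MvPolynomial.eval (fun j => algebraMap K L (sv' (fun l => y (Sum.inl l))
          (fun l => y (Sum.inr l)) j)) := by
      apply MvPolynomial.ringHom_ext
      · intro r
        simp
      · intro i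
        rw [RingHom.comp_apply, MvPolynomial.eval_X]
        have h2 : (MvPolynomial.aeval (H768.svp L N D) :
          MvPolynomial (Fin N) L →ₐ[L] MvPolynomial (Fin D ⊕ Fin D) L).toRingHom
            (MvPolynomial.X i) = H768.svp L N D i := MvPolynomial.aeval_X _ i
        rw [h2]
        unfold H768.svp sv'
        simp only [map_sum, map_mul, map_prod, map_sub, MvPolynomial.eval_X, map_natCast]
    rw [← h1]
    rfl
  have hne : ∏ i ∈ s, MvPolynomial.aeval (H768.svp L N D) (G i) ≠ 0 := by
    refine Finset.prod_ne_zero_iff.mpr fun i hi h0 => ?_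
    obtain ⟨u, w, huw⟩ := H768.exists_one (K := K) (G i) (hG i hi) (hD i hi)
    apply huw
    have := heval (Sum.elim u w) (G i)
    rw [h0, map_zero] at this
    exact this.symm
  obtain ⟨y, hy⟩ := H768.exists_pt (K := K) _ hne
  refine ⟨fun l => y (Sum.inl l), fun l => y (Sum.inr l), fun i hi => ?_⟩
  rw [← heval y (G i)]
  rw [map_prod] at hy
  exact Finset.prod_ne_zero_iff.mp hy i hi

end H

end Pool.Agent.H531R2.D4
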